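import Pool.Agent.Lib.MP_0b6b0e_gt.ZB.H94.Fin

/-!
For all `n ≥ 2` and `1 ≤ i ≤ n - 1`: the convex bodies (with the origin in the interior) that are
not determined by their `i`-th section function, up to reflection in the origin, form a meagre set
if and only if `n ≥ 3`; for `n = 2` they contain a nonempty open set.
-/

set_option autoImplicit false

open scoped Pointwise

namespace Pool.Agent.Results.MP_0b6b0e_gt.Classification

/-- Convex bodies of `ℝ ^ n` with the origin in the interior, with the Hausdorff metric. -/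
abbrev Body (n : ℕ) : Type :=
  {K : ConvexBody (EuclideanSpace ℝ (Fin n)) //
    (0 : EuclideanSpace ℝ (Fin n)) ∈ interior (K : Set (EuclideanSpace ℝ (Fin n)))}

/-- `L` and `K` have the same `i`-th section function. -/
def SameSections {n : ℕ} (i : ℕ) (L K : Body n) : Prop :=
  ∀ S : Submodule ℝ (EuclideanSpace ℝ (Fin n)), Module.finrank ℝ S = i →
    MeasureTheory.Measure.hausdorffMeasure (i : ℝ)
        ((L.1 : Set (EuclideanSpace ℝ (Fin n))) ∩ (S : Set (EuclideanSpace ℝ (Fin n)))) =
      MeasureTheory.Measure.hausdorffMeasure (i : ℝ)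
        ((K.1 : Set (EuclideanSpace ℝ (Fin n))) ∩ (S : Set (EuclideanSpace ℝ (Fin n))))

/-- `K` is determined by its `i`-th section function, up to reflection in the origin. -/
def Determined {n : ℕ} (i : ℕ) (K : Body n) : Prop :=
  ∀ L : Body n, SameSections i L K →
    (L.1 : Set (EuclideanSpace ℝ (Fin n))) = (K.1 : Set (EuclideanSpace ℝ (Fin n))) ∨
      (L.1 : Set (EuclideanSpace ℝ (Fin n))) = -(K.1 : Set (EuclideanSpace ℝ (Fin n)))

theorem result :
    (∀ n i : ℕ, 2 ≤ n → 1 ≤ i → i ≤ n - 1 →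
      (IsMeagre {K : Body n | ¬ Determined i K} ↔ 3 ≤ n)) ∧
    ∃ U : Set (Body 2), IsOpen U ∧ U.Nonempty ∧ ∀ K ∈ U, ¬ Determined 1 K := by
  have key : ∀ n i : ℕ, {K : Body n | ¬ Determined i K} = Lib.MP_0b6b0e_gt.ZB.Bad n i := by
    intro n i
    ext K
    constructor
    · intro h
      simp only [Set.mem_setOf_eq, Determined, not_forall, not_or] at h
      obtain ⟨L, h1, h2, h3⟩ := h
      exact ⟨L, h2, h3, h1⟩
    · rintro ⟨L, h2, h3, h1⟩ h
      rcases h L h1 with h4 | h4
      · exact h2 h4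
      · exact h3 h4
  obtain ⟨h1, U, hU1, hU2, hU3⟩ := Lib.MP_0b6b0e_gt.ZB.all_dimensions
  refine ⟨fun n i hn hi hin => ?_, U, hU1, hU2, fun K hK => ?_⟩
  · rw [key n i]
    exact h1 n i hn hi hin
  · have := hU3 hK
    rw [← key 2 1] at this
    exact this

end Pool.Agent.Results.MP_0b6b0e_gt.Classification
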